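import Mathlib

set_option autoImplicit false

namespace Pool.Agent.Results.MP_05142a_co.RationalThreshold

open Filter Topology

/-- `(k,q)`-colourings: values in `{0,…,k-1}`, adjacent values at distance between `q` and
`k - q` -/
def IsCol {V : Type} (G : SimpleGraph V) (k q : ℕ) (f : V → ℤ) : Prop :=
  (∀ v, 0 ≤ f v ∧ f v < k) ∧
    ∀ u v, G.Adj u v → (q : ℤ) ≤ |f u - f v| ∧ |f u - f v| ≤ (k : ℤ) - q

/-- one move between `(k,q)`-colourings: the value of one vertex may be changed -/
def Move {V : Type} (G : SimpleGraph V) (k q : ℕ) (f g : V → ℤ) : Prop :=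
  IsCol G k q f ∧ IsCol G k q g ∧ ∃ v, ∀ u, u ≠ v → g u = f u

/-- `G` is `(k,q)`-mixing -/
def Mixing {V : Type} (G : SimpleGraph V) (k q : ℕ) : Prop :=
  ∀ f g, IsCol G k q f → IsCol G k q g → Relation.ReflTransGen (Move G k q) f g

/-- the rationals `ℓ` such that `G` is `(k,q)`-mixing whenever `k / q ≥ ℓ` -/
def thresholds {V : Type} (G : SimpleGraph V) : Set ℝ :=
  {ℓ | ∃ r : ℚ, (r : ℝ) = ℓ ∧
    ∀ k q : ℕ, 0 < k → 0 < q → r ≤ (k : ℚ) / (q : ℚ) → Mixing G k q}

/-- the positive ones among these rationals -/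
def posThresholds {V : Type} (G : SimpleGraph V) : Set ℝ :=
  {ℓ | ℓ ∈ thresholds G ∧ 0 < ℓ}

section systems

variable {X : Type}

/-- integral points of a difference system -/
def Cell (A : X → X → Prop) (k q : ℕ) (f : X → ℤ) : Prop :=
  (∀ v, 0 ≤ f v ∧ f v < k) ∧
    ∀ w v, A w v → (q : ℤ) ≤ f v - f w ∧ f v - f w ≤ (k : ℤ) - q

/-- real points of the closed difference system -/
def CC (A : X → X → Prop) (x : ℝ) (g : X → ℝ) : Prop :=
  (∀ v, 0 ≤ g v ∧ g v ≤ x) ∧ ∀ w v, A w v → 1 ≤ g v - g w ∧ g v - g w ≤ x - 1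

/-- real points of the open difference system -/
def OC (A : X → X → Prop) (x : ℝ) (g : X → ℝ) : Prop :=
  (∀ v, 0 < g v ∧ g v < x) ∧ ∀ w v, A w v → 1 < g v - g w ∧ g v - g w < x - 1

lemma cc_of_cell {A : X → X → Prop} {k q : ℕ} (hq : 0 < q) {f : X → ℤ} (h : Cell A k q f) :
    CC A ((k : ℝ) / q) (fun v => (f v : ℝ) / q) := by
  have hq' : (0 : ℝ) < q := by exact_mod_cast hq
  refine ⟨fun v => ⟨?_, ?_⟩, fun w v hwv => ⟨?_, ?_⟩⟩
  · have : (0 : ℝ) ≤ f v := by exact_mod_cast (h.1 v).1
    positivity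
  · have : (f v : ℝ) ≤ k := by exact_mod_cast (h.1 v).2.le
    exact div_le_div_of_nonneg_right this hq'.le
  · have h1 : (q : ℝ) ≤ f v - f w := by exact_mod_cast (h.2 w v hwv).1
    rw [← sub_div, le_div_iff₀ hq']
    linarith
  · have h1 : (f v : ℝ) - f w ≤ k - q := by exact_mod_cast (h.2 w v hwv).2
    rw [← sub_div, div_le_iff₀ hq', sub_mul, div_mul_cancel₀ _ hq'.ne']
    linarith

/-- the parameters with a closed solution form a closed set -/
lemma closed_param [Finite X] (A : X → X → Prop) : IsClosed {x : ℝ | ∃ g, CC A x g} := by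
  apply IsSeqClosed.isClosed
  intro xs x hxs hx
  choose gs hgs using hxs
  obtain ⟨M, hM⟩ := hx.bddAbove_range
  have hM' : ∀ n, xs n ≤ M := fun n => hM ⟨n, rfl⟩
  have hmem : ∀ n, gs n ∈ Set.Icc (fun _ : X => (0 : ℝ)) (fun _ => M) := fun n =>
    ⟨fun v => ((hgs n).1 v).1, fun v => ((hgs n).1 v).2.trans (hM' n)⟩
  obtain ⟨g, _, φ, hφ, hlim⟩ := isCompact_Icc.tendsto_subseq hmem
  have hlim' : ∀ v, Tendsto (fun n => gs (φ n) v) atTop (𝓝 (g v)) := fun v =>
    (tendsto_pi_nhds.1 hlim) v
  have hx' : Tendsto (fun n => xs (φ n)) atTop (𝓝 x) := hx.comp hφ.tendsto_atTop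
  refine ⟨g, fun v => ⟨?_, ?_⟩, fun w v hwv => ⟨?_, ?_⟩⟩
  · exact ge_of_tendsto' (hlim' v) fun n => ((hgs (φ n)).1 v).1
  · exact le_of_tendsto_of_tendsto' (hlim' v) hx' fun n => ((hgs (φ n)).1 v).2
  · exact ge_of_tendsto' ((hlim' v).sub (hlim' w)) fun n => ((hgs (φ n)).2 w v hwv).1
  · exact le_of_tendsto_of_tendsto' ((hlim' v).sub (hlim' w)) (hx'.sub_const 1)
      fun n => ((hgs (φ n)).2 w v hwv).2

lemma eventually_add_mul_lt (a b s t : ℝ) (hab : a ≤ b) (hst : a = b → s < t) :
    ∀ᶠ ε in 𝓝[>] (0 : ℝ), a + ε * s < b + ε * t := by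
  rcases hab.lt_or_eq with h | h
  · have h1 : Tendsto (fun ε : ℝ => a + ε * s) (𝓝[>] 0) (𝓝 (a + 0 * s)) :=
      ((continuous_const.add (continuous_id.mul continuous_const)).tendsto 0).mono_left
        nhdsWithin_le_nhds
    have h2 : Tendsto (fun ε : ℝ => b + ε * t) (𝓝[>] 0) (𝓝 (b + 0 * t)) :=
      ((continuous_const.add (continuous_id.mul continuous_const)).tendsto 0).mono_left
        nhdsWithin_le_nhds
    exact h1.eventually_lt h2 (by simpa using h)
  · subst h
    filter_upwards [self_mem_nhdsWithin] with ε hε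
    have : ε * s < ε * t := mul_lt_mul_of_pos_left (hst rfl) hε
    linarith

/-- for irrational parameters a closed solution can be perturbed to an open one -/
lemma perturb [Finite X] (A : X → X → Prop) (x : ℝ) (hx : Irrational x) (g : X → ℝ)
    (hg : CC A x g) : ∃ g', OC A x g' := by
  -- an additive functional separating `1` and `x`
  obtain ⟨L, hL1, hLx⟩ : ∃ L : ℝ →ₗ[ℚ] ℝ, L 1 = 1 ∧ L x = -1 := by
    have hx' : x ∉ Submodule.span ℚ ({1} : Set ℝ) := by
      rw [Submodule.mem_span_singleton]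
      rintro ⟨a, ha⟩
      apply hx
      refine ⟨a, ?_⟩
      rw [← ha]
      simp [Rat.smul_def]
    obtain ⟨g, hg1, hg2⟩ := LinearMap.exists_extend_of_notMem
      (Submodule.subtype (Submodule.span ℚ ({1} : Set ℝ))) hx' (-1)
    refine ⟨g, ?_, hg2⟩
    have := congrArg (fun h : Submodule.span ℚ ({1} : Set ℝ) →ₗ[ℚ] ℝ =>
      h ⟨1, Submodule.mem_span_singleton_self 1⟩) hg1
    simpa using this
  let h : X → ℝ := fun v => L (g v) + 1 / 2
  have hev : ∀ᶠ ε in 𝓝[>] (0 : ℝ), (∀ v, 0 + ε * 0 < g v + ε * h v ∧ g v + ε * h v < x + ε * 0) ∧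
      ∀ w v, A w v → (1 + g w) + ε * h w < g v + ε * h v ∧
        g v + ε * h v < (x - 1 + g w) + ε * h w := by
    refine Filter.Eventually.and ?_ ?_
    · rw [eventually_all]
      intro v
      refine Filter.Eventually.and ?_ ?_
      · apply eventually_add_mul_lt _ _ _ _ (hg.1 v).1
        intro h0
        simp only [h]
        rw [← h0, map_zero]
        norm_num
      · apply eventually_add_mul_lt _ _ _ _ (hg.1 v).2
        intro h0
        simp only [h]
        rw [h0, hLx]
        norm_num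
    · rw [eventually_all]
      intro w
      rw [eventually_all]
      intro v
      by_cases hwv : A w v
      · refine Filter.Eventually.mono (Filter.Eventually.and
          (eventually_add_mul_lt (1 + g w) (g v) (h w) (h v)
            (by linarith [(hg.2 w v hwv).1]) ?_)
          (eventually_add_mul_lt (g v) (x - 1 + g w) (h v) (h w)
            (by linarith [(hg.2 w v hwv).2]) ?_)) (fun ε hε _ => hε)
        · intro h0
          simp only [h]
          rw [← h0, map_add, hL1]
          linarith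
        · intro h0
          simp only [h]
          rw [h0, map_add, map_sub, hL1, hLx]
          linarith
      · exact Filter.Eventually.of_forall fun ε h => absurd h hwv
  obtain ⟨ε, hε⟩ := hev.exists
  refine ⟨fun v => g v + ε * h v, fun v => ⟨?_, ?_⟩, fun w v hwv => ⟨?_, ?_⟩⟩
  · have := (hε.1 v).1; linarith
  · have := (hε.1 v).2; linarith
  · have := (hε.2 w v hwv).1; simp only; linarith
  · have := (hε.2 w v hwv).2; simp only; linarith

/-- pairs `(k,q)` with `q > 0` and `k / q` close to `x` -/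
noncomputable def near (x : ℝ) : Filter (ℕ × ℕ) :=
  comap (fun p : ℕ × ℕ => (p.1 : ℝ) / p.2) (𝓝 x) ⊓ 𝓟 {p | 0 < p.2}

lemma near_tendsto (x : ℝ) : Tendsto (fun p : ℕ × ℕ => (p.1 : ℝ) / p.2) (near x) (𝓝 x) :=
  tendsto_comap.mono_left inf_le_left

lemma near_pos (x : ℝ) : ∀ᶠ p in near x, 0 < p.2 :=
  mem_inf_of_right (mem_principal_self _)

/-- close to an irrational number fractions with bounded denominators do not occur -/
lemma near_avoid (x : ℝ) (hx : Irrational x) (n : ℕ) :
    ∀ᶠ p in near x, ∀ b : ℕ, b ≤ n → ∀ m : ℤ, (p.1 : ℝ) / p.2 ≠ (m : ℝ) / b := by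
  obtain ⟨ε, hε, h0⟩ := ((hx.eventually_forall_le_dist_cast_div_of_denom_le n).filter_mono
    (nhdsWithin_le_nhds (s := Set.Ioi 0))).and self_mem_nhdsWithin |>.exists
  have h1 : ∀ᶠ p in near x, dist ((p.1 : ℝ) / p.2) x < ε :=
    (near_tendsto x).eventually (Metric.ball_mem_nhds x h0)
  filter_upwards [h1] with p hp b hb m heq
  have := hε b hb m
  rw [← heq, dist_comm] at this
  exact absurd hp (not_lt.2 this)

lemma near_large (x : ℝ) (hx : Irrational x) (Q : ℕ) : ∀ᶠ p in near x, Q < p.2 := by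
  filter_upwards [near_avoid x hx Q] with p hp
  by_contra hcon
  exact hp p.2 (not_lt.1 hcon) p.1 (by simp)

/-- rounding an open solution -/
lemma rounding [Finite X] (A : X → X → Prop) (x : ℝ) (hx : Irrational x) (g : X → ℝ)
    (hg : OC A x g) : ∀ᶠ p in near x, ∃ f, Cell A p.1 p.2 f := by
  -- a common slack
  have hev : ∀ᶠ δ in 𝓝[>] (0 : ℝ), (∀ v, g v < x - δ) ∧
      ∀ w v, A w v → 1 + δ < g v - g w ∧ g v - g w < x - 1 - δ := by
    refine Filter.Eventually.and ?_ ?_
    · rw [eventually_all]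
      intro v
      have := eventually_add_mul_lt (g v) x 0 (-1) (hg.1 v).2.le
        (fun h => absurd h (hg.1 v).2.ne)
      filter_upwards [this] with δ hδ
      linarith
    · rw [eventually_all]
      intro w
      rw [eventually_all]
      intro v
      by_cases hwv : A w v
      · have h1 := eventually_add_mul_lt 1 (g v - g w) 1 0 (hg.2 w v hwv).1.le
          (fun h => absurd h (hg.2 w v hwv).1.ne)
        have h2 := eventually_add_mul_lt (g v - g w) (x - 1) 0 (-1) (hg.2 w v hwv).2.le
          (fun h => absurd h (hg.2 w v hwv).2.ne)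
        filter_upwards [h1, h2] with δ hδ1 hδ2 _
        constructor <;> linarith
      · exact Filter.Eventually.of_forall fun ε h => absurd h hwv
  obtain ⟨δ, ⟨hδ1, hδ2⟩, hδ0⟩ := (hev.and self_mem_nhdsWithin).exists
  have hδ0 : 0 < δ := hδ0
  obtain ⟨Q, hQ⟩ := exists_nat_gt (2 / δ)
  have h1 : ∀ᶠ p in near x, x - δ / 2 < (p.1 : ℝ) / p.2 :=
    (near_tendsto x).eventually (lt_mem_nhds (by linarith))
  filter_upwards [near_large x hx Q, h1, near_pos x] with p hp hk hq
  have hq' : (0 : ℝ) < p.2 := by exact_mod_cast hq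
  have hqQ : 2 < δ * p.2 := by
    have h3 : (2 : ℝ) / δ < p.2 := hQ.trans (by exact_mod_cast hp)
    rw [div_lt_iff₀ hδ0] at h3
    linarith
  have hk' : (x - δ / 2) * p.2 < p.1 := by
    rwa [lt_div_iff₀ hq'] at hk
  refine ⟨fun v => ⌊g v * p.2⌋, fun v => ⟨?_, ?_⟩, fun w v hwv => ⟨?_, ?_⟩⟩
  · apply Int.floor_nonneg.2
    have := (hg.1 v).1
    positivity
  · have h3 : g v * p.2 < p.1 := by
      have : g v * p.2 ≤ (x - δ) * p.2 := mul_le_mul_of_nonneg_right (hδ1 v).le hq'.le
      nlinarith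
    have h4 := Int.floor_le (g v * p.2)
    have : ((⌊g v * p.2⌋ : ℤ) : ℝ) < ((p.1 : ℤ) : ℝ) := by push_cast; linarith
    exact_mod_cast this
  · have h3 : (1 + δ) * p.2 ≤ (g v - g w) * p.2 :=
      mul_le_mul_of_nonneg_right (hδ2 w v hwv).1.le hq'.le
    have h4 := Int.floor_le (g w * p.2)
    have h5 := Int.lt_floor_add_one (g v * p.2)
    have : ((p.2 : ℤ) : ℝ) < ((⌊g v * p.2⌋ - ⌊g w * p.2⌋ : ℤ) : ℝ) := by
      push_cast
      nlinarith
    have h6 : (p.2 : ℤ) < ⌊g v * p.2⌋ - ⌊g w * p.2⌋ := by exact_mod_cast this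
    exact h6.le
  · have h3 : (g v - g w) * p.2 ≤ (x - 1 - δ) * p.2 :=
      mul_le_mul_of_nonneg_right (hδ2 w v hwv).2.le hq'.le
    have h4 := Int.floor_le (g v * p.2)
    have h5 := Int.lt_floor_add_one (g w * p.2)
    have : ((⌊g v * p.2⌋ - ⌊g w * p.2⌋ : ℤ) : ℝ) < ((p.1 - p.2 : ℤ) : ℝ) := by
      push_cast
      nlinarith
    have h6 : ⌊g v * p.2⌋ - ⌊g w * p.2⌋ < (p.1 - p.2 : ℤ) := by exact_mod_cast this
    exact h6.le

/-- solvability of a difference system is constant near an irrational parameter -/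
lemma stable_cell [Finite X] (A : X → X → Prop) (x : ℝ) (hx : Irrational x) :
    ∃ b : Prop, ∀ᶠ p in near x, ((∃ f, Cell A p.1 p.2 f) ↔ b) := by
  by_cases h : ∃ g, OC A x g
  · obtain ⟨g, hg⟩ := h
    refine ⟨True, ?_⟩
    filter_upwards [rounding A x hx g hg] with p hp
    simpa using hp
  · refine ⟨False, ?_⟩
    have hx' : x ∉ {x : ℝ | ∃ g, CC A x g} := by
      rintro ⟨g, hg⟩
      exact h (perturb A x hx g hg)
    have hopen : {x : ℝ | ∃ g, CC A x g}ᶜ ∈ 𝓝 x := (closed_param A).isOpen_compl.mem_nhds hx'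
    filter_upwards [(near_tendsto x).eventually hopen, near_pos x] with p hp hq
    rw [iff_false]
    rintro ⟨f, hf⟩
    exact hp ⟨_, cc_of_cell hq hf⟩


/-- one-vertex changes inside one cell -/
def CMove (A : X → X → Prop) (k q : ℕ) (f g : X → ℤ) : Prop :=
  Cell A k q f ∧ Cell A k q g ∧ ∃ v, ∀ u, u ≠ v → g u = f u

lemma CMove.symm' {A : X → X → Prop} {k q : ℕ} {f g : X → ℤ} (h : CMove A k q f g) :
    CMove A k q g f := by
  obtain ⟨h1, h2, v, hv⟩ := h
  exact ⟨h2, h1, v, fun u hu => (hv u hu).symm⟩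

lemma reach_symm {A : X → X → Prop} {k q : ℕ} {f g : X → ℤ}
    (h : Relation.ReflTransGen (CMove A k q) f g) : Relation.ReflTransGen (CMove A k q) g f := by
  induction h with
  | refl => exact Relation.ReflTransGen.refl
  | tail _ hs ih => exact Relation.ReflTransGen.head hs.symm' ih

open Classical in
/-- if no vertex below `g` can be raised there is a critical ratio -/
lemma exists_raise [Fintype X] (A : X → X → Prop) (k q : ℕ) (hq : 0 < q)
    (hcrit : ∀ m b : ℕ, 1 ≤ m → b ≤ m → m ≤ Fintype.card X → m * q ≠ b * k)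
    (f g : X → ℤ) (hf : Cell A k q f) (hg : Cell A k q g) (hfg : ∀ v, f v ≤ g v) (v₀ : X)
    (hv₀ : f v₀ < g v₀) :
    ∃ v, f v < g v ∧ Cell A k q (fun u => if u = v then f u + 1 else f u) := by
  classical
  by_contra hcon
  push Not at hcon
  -- each vertex of the difference set is blocked by another one
  have hblock : ∀ v : {v // f v < g v}, ∃ u : {v // f v < g v},
      f u.1 = f v.1 + q ∨ f u.1 = f v.1 + q - k := by
    rintro ⟨v, hv⟩
    have hno := hcon v hv
    by_contra hne
    push Not at hne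
    apply hno
    refine ⟨fun u => ?_, fun w u hwu => ?_⟩
    · have h1 := hf.1 u
      have h2 := hg.1 u
      by_cases huv : u = v
      · subst huv; simp only [if_true]; constructor <;> omega
      · simp only [huv, if_false]; exact h1
    · have h1 := hf.2 w u hwu
      have h2 := hg.2 w u hwu
      have h3 := hfg w
      have h4 := hfg u
      by_cases hw : w = v
      · by_cases hu : u = v
        · subst hw; subst hu
          have : (q : ℤ) ≤ f u - f u := h1.1
          have hq' : (0 : ℤ) < q := by exact_mod_cast hq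
          omega
        · subst hw
          simp only [hu, if_true, if_false]
          refine ⟨?_, by omega⟩
          by_contra hlt
          have heq : f u = f w + q := by omega
          exact (hne ⟨u, by omega⟩).1 heq
      · by_cases hu : u = v
        · subst hu
          simp only [hw, if_true, if_false]
          refine ⟨by omega, ?_⟩
          by_contra hlt
          have heq : f w = f u + q - k := by omega
          exact (hne ⟨w, by omega⟩).2 heq
        · simp only [hw, hu, if_false]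
          exact h1
  choose t ht using hblock
  have hiter : ∀ (m : ℕ) (v : {v // f v < g v}), ∃ b : ℕ, b ≤ m ∧
      f (t^[m] v).1 = f v.1 + m * q - b * k := by
    intro m
    induction m with
    | zero => intro v; exact ⟨0, le_rfl, by simp⟩
    | succ m ih =>
      intro v
      obtain ⟨b, hb, hbf⟩ := ih v
      rw [Function.iterate_succ_apply']
      rcases ht (t^[m] v) with h | h
      · refine ⟨b, by omega, ?_⟩
        rw [h, hbf]; push_cast; ring
      · refine ⟨b + 1, by omega, ?_⟩
        rw [h, hbf]; push_cast; ring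
  -- a periodic point
  have hcard : Fintype.card {v // f v < g v} < Fintype.card (Fin (Fintype.card X + 1)) := by
    rw [Fintype.card_fin]
    have := Fintype.card_subtype_le (fun v => f v < g v)
    omega
  obtain ⟨i, j, hij, heq⟩ := Fintype.exists_ne_map_eq_of_card_lt
    (fun i : Fin (Fintype.card X + 1) => t^[i] ⟨v₀, hv₀⟩) hcard
  have key : ∀ i j : ℕ, i < j → j ≤ Fintype.card X →
      t^[i] (⟨v₀, hv₀⟩ : {v // f v < g v}) = t^[j] ⟨v₀, hv₀⟩ → False := by
    intro i j hij hj heq
    have h1 : t^[j] (⟨v₀, hv₀⟩ : {v // f v < g v}) = t^[j - i] (t^[i] ⟨v₀, hv₀⟩) := by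
      rw [← Function.iterate_add_apply]
      congr 1
      congr 1
      omega
    rw [h1] at heq
    obtain ⟨b, hb, hbf⟩ := hiter (j - i) (t^[i] ⟨v₀, hv₀⟩)
    rw [← heq] at hbf
    apply hcrit (j - i) b (by omega) hb (by omega)
    have : ((j - i : ℕ) : ℤ) * q = b * k := by linarith
    exact_mod_cast this
  rcases lt_or_gt_of_ne (fun h : (i : ℕ) = j => hij (Fin.ext h)) with h | h
  · exact key i j h (by omega) heq
  · exact key j i h (by omega) heq.symm

lemma reach_up [Fintype X] (A : X → X → Prop) (k q : ℕ) (hq : 0 < q)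
    (hcrit : ∀ m b : ℕ, 1 ≤ m → b ≤ m → m ≤ Fintype.card X → m * q ≠ b * k)
    (g : X → ℤ) (hg : Cell A k q g) :
    ∀ (N : ℕ) (f : X → ℤ), Cell A k q f → (∀ v, f v ≤ g v) → ∑ v, (g v - f v) ≤ N →
      Relation.ReflTransGen (CMove A k q) f g := by
  classical
  intro N
  induction N with
  | zero =>
    intro f hf hfg hN
    have h0 : ∀ v ∈ Finset.univ, g v - f v = 0 := by
      have hle : ∑ v, (g v - f v) = 0 := le_antisymm (by simpa using hN)
        (Finset.sum_nonneg fun v _ => by linarith [hfg v])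
      exact (Finset.sum_eq_zero_iff_of_nonneg fun v _ => by linarith [hfg v]).1 hle
    have : f = g := by
      ext v
      have := h0 v (Finset.mem_univ _)
      linarith
    rw [this]
  | succ N ih =>
    intro f hf hfg hN
    by_cases hall : ∀ v, f v = g v
    · rw [show f = g from funext hall]
    push Not at hall
    obtain ⟨v₀, hv₀⟩ := hall
    obtain ⟨v, hv, hcell⟩ := exists_raise A k q hq hcrit f g hf hg hfg v₀
      (lt_of_le_of_ne (hfg v₀) hv₀)
    refine Relation.ReflTransGen.head ⟨hf, hcell, v, fun u hu => by simp [hu]⟩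
      (ih _ hcell ?_ ?_)
    · intro u
      by_cases hu : u = v
      · subst hu; simp only [if_true]; omega
      · simp only [hu, if_false]; exact hfg u
    · have : ∑ u, (g u - (if u = v then f u + 1 else f u)) = ∑ u, (g u - f u) - 1 := by
        rw [← Finset.add_sum_erase _ _ (Finset.mem_univ v),
          ← Finset.add_sum_erase (Finset.univ) (fun u => g u - f u) (Finset.mem_univ v)]
        simp only [if_true]
        have : ∑ u ∈ Finset.univ.erase v, (g u - (if u = v then f u + 1 else f u)) =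
            ∑ u ∈ Finset.univ.erase v, (g u - f u) := by
          apply Finset.sum_congr rfl
          intro u hu
          rw [if_neg (Finset.ne_of_mem_erase hu)]
        rw [this]
        ring
      rw [this]
      push_cast at hN
      linarith

lemma cell_min (A : X → X → Prop) (k q : ℕ) (f g : X → ℤ) (hf : Cell A k q f)
    (hg : Cell A k q g) : Cell A k q (fun v => min (f v) (g v)) := by
  refine ⟨fun v => ?_, fun w v hwv => ?_⟩
  · have h1 := hf.1 v
    have h2 := hg.1 v
    simp only
    omega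
  · have h1 := hf.2 w v hwv
    have h2 := hg.2 w v hwv
    simp only
    omega

/-- inside a cell everything is connected unless `k / q` is critical -/
lemma cell_connected [Fintype X] (A : X → X → Prop) (k q : ℕ) (hq : 0 < q)
    (hcrit : ∀ m b : ℕ, 1 ≤ m → b ≤ m → m ≤ Fintype.card X → m * q ≠ b * k)
    (f g : X → ℤ) (hf : Cell A k q f) (hg : Cell A k q g) :
    Relation.ReflTransGen (CMove A k q) f g := by
  have hm := cell_min A k q f g hf hg
  have h1 := reach_up A k q hq hcrit f hf (∑ v, (f v - min (f v) (g v))).toNat _ hm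
    (fun v => min_le_left _ _) (Int.self_le_toNat _)
  have h2 := reach_up A k q hq hcrit g hg (∑ v, (g v - min (f v) (g v))).toNat _ hm
    (fun v => min_le_right _ _) (Int.self_le_toNat _)
  exact (reach_symm h1).trans h2

/-- close to an irrational number no ratio is critical -/
lemma near_not_crit (x : ℝ) (hx : Irrational x) (n : ℕ) :
    ∀ᶠ p in near x, ∀ m b : ℕ, 1 ≤ m → b ≤ m → m ≤ n → m * p.2 ≠ b * p.1 := by
  filter_upwards [near_avoid x hx n, near_pos x] with p hp hq m b hm hb hn heq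
  have hq' : (0 : ℝ) < p.2 := by exact_mod_cast hq
  have hb0 : b ≠ 0 := by
    rintro rfl
    have : m * p.2 = 0 := by simpa using heq
    rcases Nat.mul_eq_zero.1 this with h | h <;> omega
  have hb' : (0 : ℝ) < b := by exact_mod_cast Nat.pos_of_ne_zero hb0
  apply hp b (hb.trans hn) m
  rw [div_eq_div_iff hq'.ne' hb'.ne']
  have : ((m * p.2 : ℕ) : ℝ) = ((b * p.1 : ℕ) : ℝ) := by rw [heq]
  push_cast at this ⊢
  linarith

end systems


section cells

variable {V : Type}

/-- orientations of `G` -/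
def Ori (G : SimpleGraph V) (σ : V → V → Prop) : Prop :=
  (∀ w v, σ w v → G.Adj w v) ∧ ∀ w v, G.Adj w v → σ w v ∨ σ v w

/-- the orientation given by the values -/
def sgn (G : SimpleGraph V) (f : V → ℤ) : V → V → Prop := fun w v => G.Adj w v ∧ f w < f v

lemma sgn_ori {G : SimpleGraph V} {k q : ℕ} (hq : 0 < q) {f : V → ℤ} (h : IsCol G k q f) :
    Ori G (sgn G f) := by
  refine ⟨fun w v h => h.1, fun w v hwv => ?_⟩
  have h1 := (h.2 w v hwv).1
  have hq' : (0 : ℤ) < q := by exact_mod_cast hq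
  have hne : f w ≠ f v := by
    intro he
    rw [he, sub_self, abs_zero] at h1
    omega
  rcases lt_or_gt_of_ne hne with h2 | h2
  · exact Or.inl ⟨hwv, h2⟩
  · exact Or.inr ⟨hwv.symm, h2⟩

lemma cell_sgn {G : SimpleGraph V} {k q : ℕ} {f : V → ℤ} (h : IsCol G k q f) :
    Cell (sgn G f) k q f := by
  refine ⟨h.1, fun w v hwv => ?_⟩
  have h1 := h.2 w v hwv.1
  rw [abs_sub_comm, abs_of_pos (by linarith [hwv.2])] at h1
  exact h1

lemma col_of_cell {G : SimpleGraph V} {k q : ℕ} {σ : V → V → Prop} (hσ : Ori G σ)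
    {f : V → ℤ} (h : Cell σ k q f) : IsCol G k q f := by
  refine ⟨h.1, fun u v huv => ?_⟩
  rcases hσ.2 u v huv with h1 | h1
  · have h2 := h.2 u v h1
    rw [abs_sub_comm, abs_of_nonneg (by omega)]
    exact h2
  · have h2 := h.2 v u h1
    rw [abs_of_nonneg (by omega)]
    exact h2

/-- adjacency of cells -/
def CT (G : SimpleGraph V) (k q : ℕ) (σ τ : V → V → Prop) : Prop :=
  Ori G σ ∧ Ori G τ ∧ ∃ f g, Cell σ k q f ∧ Cell τ k q g ∧ ∃ v, ∀ u, u ≠ v → g u = f u

lemma mixing_iff [Fintype V] (G : SimpleGraph V) (k q : ℕ) (hq : 0 < q)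
    (hcrit : ∀ m b : ℕ, 1 ≤ m → b ≤ m → m ≤ Fintype.card V → m * q ≠ b * k) :
    Mixing G k q ↔ ∀ σ τ : V → V → Prop, Ori G σ → Ori G τ → (∃ f, Cell σ k q f) →
      (∃ g, Cell τ k q g) → Relation.ReflTransGen (CT G k q) σ τ := by
  constructor
  · intro hmix σ τ hσ hτ ⟨f, hf⟩ ⟨g, hg⟩
    rcases isEmpty_or_nonempty V with hV | ⟨⟨v₀⟩⟩
    · have : σ = τ := by ext a; exact (hV.false a).elim
      rw [this]
    have hpath := hmix f g (col_of_cell hσ hf) (col_of_cell hτ hg)
    have key : ∀ h, Relation.ReflTransGen (Move G k q) f h → ∀ ρ, Ori G ρ → Cell ρ k q h →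
        Relation.ReflTransGen (CT G k q) σ ρ := by
      intro h hp
      induction hp with
      | refl =>
        intro ρ hρ hc
        exact Relation.ReflTransGen.single ⟨hσ, hρ, f, f, hf, hc, v₀, fun _ _ => rfl⟩
      | @tail a b _ hstep ih =>
        intro ρ hρ hc
        obtain ⟨ha, hb, v, hv⟩ := hstep
        exact Relation.ReflTransGen.tail (ih (sgn G a) (sgn_ori hq ha) (cell_sgn ha))
          ⟨sgn_ori hq ha, hρ, a, b, cell_sgn ha, hc, v, hv⟩
    exact key g hpath τ hτ hg
  · intro hchain f g hf hg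
    have hcm : ∀ ρ, Ori G ρ → ∀ a b, Cell ρ k q a → Cell ρ k q b →
        Relation.ReflTransGen (Move G k q) a b := by
      intro ρ hρ a b ha hb
      have := cell_connected ρ k q hq hcrit a b ha hb
      refine this.lift id ?_
      rintro x y ⟨hx, hy, v, hv⟩
      exact ⟨col_of_cell hρ hx, col_of_cell hρ hy, v, hv⟩
    have h0 := hchain (sgn G f) (sgn G g) (sgn_ori hq hf) (sgn_ori hq hg) ⟨f, cell_sgn hf⟩
      ⟨g, cell_sgn hg⟩
    have key : ∀ τ, Relation.ReflTransGen (CT G k q) (sgn G f) τ → Ori G τ → ∀ g, Cell τ k q g →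
        Relation.ReflTransGen (Move G k q) f g := by
      intro τ hp
      induction hp with
      | refl => intro hτ g hg; exact hcm _ hτ f g (cell_sgn hf) hg
      | @tail a b _ hstep ih =>
        intro hτ g hg
        obtain ⟨ha, hb, f', g', hf', hg', v, hv⟩ := hstep
        exact ((ih ha f' hf').tail ⟨col_of_cell ha hf', col_of_cell hb hg', v, hv⟩).trans
          (hcm b hb g' g hg' hg)
    exact key _ h0 (sgn_ori hq hg) g (cell_sgn hg)

open Classical in
/-- the vertex or its clone -/
noncomputable def cl (v w : V) : Option V := if w = v then none else some w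

/-- the difference system on `V` and a clone of `v` -/
def Dbl (σ τ : V → V → Prop) (v : V) : Option V → Option V → Prop := fun a b =>
  (∃ w u, a = some w ∧ b = some u ∧ σ w u) ∨ (∃ w u, a = cl v w ∧ b = cl v u ∧ τ w u)

lemma dbl_iff (k q : ℕ) (σ τ : V → V → Prop) :
    (∃ f g, Cell σ k q f ∧ Cell τ k q g ∧ ∃ v, ∀ u, u ≠ v → g u = f u) ↔
      ∃ v, ∃ F, Cell (Dbl σ τ v) k q F := by
  classical
  constructor
  · rintro ⟨f, g, hf, hg, v, hv⟩
    let F : Option V → ℤ := fun a => a.elim (g v) f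
    have hF : ∀ w, F (cl v w) = g w := by
      intro w
      unfold cl
      by_cases h : w = v
      · rw [if_pos h, h]; rfl
      · rw [if_neg h, hv w h]; rfl
    refine ⟨v, F, fun a => ?_, fun a b hab => ?_⟩
    · cases a with
      | none => exact hg.1 v
      | some w => exact hf.1 w
    · rcases hab with ⟨w, u, rfl, rfl, h⟩ | ⟨w, u, rfl, rfl, h⟩
      · exact hf.2 w u h
      · rw [hF, hF]; exact hg.2 w u h
  · rintro ⟨v, F, hF⟩
    refine ⟨fun w => F (some w), fun w => F (cl v w), ⟨fun w => hF.1 _, fun w u h => ?_⟩,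
      ⟨fun w => hF.1 _, fun w u h => ?_⟩, v, fun u hu => ?_⟩
    · exact hF.2 _ _ (Or.inl ⟨w, u, rfl, rfl, h⟩)
    · exact hF.2 _ _ (Or.inr ⟨w, u, rfl, rfl, h⟩)
    · simp only [cl, if_neg hu]

/-- mixing is constant near an irrational parameter -/
lemma stable_mixing [Fintype V] (G : SimpleGraph V) (x : ℝ) (hx : Irrational x) :
    ∃ b : Prop, ∀ᶠ p in near x, (Mixing G p.1 p.2 ↔ b) := by
  have h1 : ∀ σ : V → V → Prop, ∃ b : Prop, ∀ᶠ p in near x, ((∃ f, Cell σ p.1 p.2 f) ↔ b) :=
    fun σ => stable_cell σ x hx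
  have h2 : ∀ (σ τ : V → V → Prop) (v : V), ∃ b : Prop, ∀ᶠ p in near x,
      ((∃ F, Cell (Dbl σ τ v) p.1 p.2 F) ↔ b) := fun σ τ v => stable_cell (Dbl σ τ v) x hx
  choose b₁ hb₁ using h1
  choose b₂ hb₂ using h2
  have e1 : ∀ᶠ p in near x, ∀ σ, ((∃ f, Cell σ p.1 p.2 f) ↔ b₁ σ) := eventually_all.2 hb₁
  have e2 : ∀ᶠ p in near x, ∀ σ τ v, ((∃ F, Cell (Dbl σ τ v) p.1 p.2 F) ↔ b₂ σ τ v) :=
    eventually_all.2 fun σ => eventually_all.2 fun τ => eventually_all.2 fun v => hb₂ σ τ v
  refine ⟨∀ σ τ : V → V → Prop, Ori G σ → Ori G τ → b₁ σ → b₁ τ →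
    Relation.ReflTransGen (fun σ τ => Ori G σ ∧ Ori G τ ∧ ∃ v, b₂ σ τ v) σ τ, ?_⟩
  filter_upwards [e1, e2, near_pos x, near_not_crit x hx (Fintype.card V)] with p hp1 hp2 hq hcrit
  rw [mixing_iff G p.1 p.2 hq hcrit]
  have hCT : CT G p.1 p.2 = fun σ τ => Ori G σ ∧ Ori G τ ∧ ∃ v, b₂ σ τ v := by
    ext σ τ
    unfold CT
    rw [dbl_iff]
    simp only [hp2]
  simp only [hp1, hCT]

end cells

section large

variable {V : Type}

lemma reach_replace [Fintype V] (G : SimpleGraph V) (k q : ℕ) (f h : V → ℤ) (hf : IsCol G k q f)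
    (hr : ∀ v, 0 ≤ h v ∧ h v < k)
    (hh : ∀ u v, u ≠ v → (q : ℤ) ≤ |h u - h v| ∧ |h u - h v| ≤ (k : ℤ) - q)
    (hfh : ∀ u v, (q : ℤ) ≤ |h u - f v| ∧ |h u - f v| ≤ (k : ℤ) - q) :
    IsCol G k q h ∧ Relation.ReflTransGen (Move G k q) f h ∧
      Relation.ReflTransGen (Move G k q) h f := by
  classical
  let mix : Finset V → V → ℤ := fun s v => if v ∈ s then h v else f v
  have hcol : ∀ s, IsCol G k q (mix s) := by
    intro s
    refine ⟨fun v => ?_, fun u v huv => ?_⟩
    · simp only [mix]; split_ifs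
      · exact hr v
      · exact hf.1 v
    · simp only [mix]
      by_cases hu : u ∈ s <;> by_cases hv : v ∈ s <;> simp only [hu, hv, if_true, if_false]
      · exact hh u v huv.ne
      · exact hfh u v
      · rw [abs_sub_comm]; exact hfh v u
      · exact hf.2 u v huv
  have hstep : ∀ s : Finset V, Relation.ReflTransGen (Move G k q) f (mix s) ∧
      Relation.ReflTransGen (Move G k q) (mix s) f := by
    intro s
    induction s using Finset.induction_on with
    | empty =>
      have : mix ∅ = f := by ext v; simp [mix]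
      rw [this]
      exact ⟨Relation.ReflTransGen.refl, Relation.ReflTransGen.refl⟩
    | @insert a s ha ih =>
      have h1 : ∀ u, u ≠ a → mix (insert a s) u = mix s u := by
        intro u hu
        simp [mix, hu]
      exact ⟨ih.1.tail ⟨hcol _, hcol _, a, h1⟩,
        ih.2.head ⟨hcol _, hcol _, a, fun u hu => (h1 u hu).symm⟩⟩
  have huniv : mix Finset.univ = h := by ext v; simp [mix]
  have h1 := hcol Finset.univ
  have h2 := hstep Finset.univ
  rw [huniv] at h1 h2
  exact ⟨h1, h2.1, h2.2⟩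

lemma mixing_large [Fintype V] (G : SimpleGraph V) (k q : ℕ) (hq : 0 < q)
    (hk : 2 * q * (3 * Fintype.card V + 1) ≤ k) : Mixing G k q := by
  classical
  intro f g hf hg
  set n := Fintype.card V with hn
  have hq' : (0 : ℤ) < q := by exact_mod_cast hq
  let c : Fin (3 * n) → ℤ := fun j => 2 * q * ((j : ℕ) + 1)
  have hk' : 2 * (q : ℤ) * (3 * n + 1) ≤ k := by exact_mod_cast hk
  have hc : ∀ j, 2 * (q : ℤ) ≤ c j ∧ c j ≤ k - 2 * q := by
    intro j
    have h1 : ((j : ℕ) : ℤ) + 1 ≤ 3 * n := by have := j.2; omega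
    have h0 : (0 : ℤ) ≤ ((j : ℕ) : ℤ) := by positivity
    simp only [c]
    constructor <;> nlinarith
  have hcc : ∀ i j, i ≠ j → 2 * (q : ℤ) ≤ |c i - c j| := by
    intro i j hij
    have h1 : (1 : ℤ) ≤ |((i : ℕ) : ℤ) - (j : ℕ)| := by
      have : (i : ℕ) ≠ j := fun h => hij (Fin.ext h)
      apply Int.one_le_abs
      omega
    have h2 : c i - c j = 2 * q * (((i : ℕ) : ℤ) - (j : ℕ)) := by simp only [c]; ring
    rw [h2, abs_mul, abs_of_pos (by positivity)]
    nlinarith
  let vals : V ⊕ V → ℤ := Sum.elim f g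
  have hvals : ∀ s, 0 ≤ vals s ∧ vals s < k := by
    rintro (v | v)
    · exact hf.1 v
    · exact hg.1 v
  let P : Fin (3 * n) → Prop := fun j => ∃ s, |c j - vals s| < q
  -- few candidates are bad
  have hbad : Fintype.card {j // P j} ≤ 2 * n := by
    choose s hs using (fun j : {j // P j} => j.2)
    have hinj : Function.Injective s := by
      intro i j hij
      by_contra hne
      have h1 := hs i
      have h2 := hs j
      rw [hij] at h1
      have h3 := hcc i.1 j.1 (fun h => hne (Subtype.ext h))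
      have h4 : |c i.1 - c j.1| ≤ |c i.1 - vals (s j)| + |c j.1 - vals (s j)| := by
        have : c i.1 - c j.1 = (c i.1 - vals (s j)) - (c j.1 - vals (s j)) := by ring
        rw [this]
        exact abs_sub _ _
      linarith
    have := Fintype.card_le_of_injective s hinj
    rw [Fintype.card_sum] at this
    omega
  have hgood : Fintype.card V ≤ Fintype.card {j // ¬ P j} := by
    have := Fintype.card_subtype_compl P
    rw [this, Fintype.card_fin]
    omega
  obtain ⟨e⟩ := Function.Embedding.nonempty_of_card_le hgood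
  let h : V → ℤ := fun v => c (e v).1
  have hhr : ∀ v, 0 ≤ h v ∧ h v < k := by
    intro v
    have := hc (e v).1
    simp only [h]
    constructor <;> omega
  have hhh : ∀ u v, u ≠ v → (q : ℤ) ≤ |h u - h v| ∧ |h u - h v| ≤ (k : ℤ) - q := by
    intro u v huv
    have h1 := hc (e u).1
    have h2 := hc (e v).1
    have h3 := hcc (e u).1 (e v).1 (fun h => huv (e.injective (Subtype.ext h)))
    refine ⟨by simp only [h]; linarith, ?_⟩
    simp only [h]
    rw [abs_le]
    constructor <;> omega
  have hhv : ∀ u s, (q : ℤ) ≤ |h u - vals s| ∧ |h u - vals s| ≤ (k : ℤ) - q := by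
    intro u s
    have h1 := hc (e u).1
    have h2 := hvals s
    refine ⟨?_, ?_⟩
    · by_contra hlt
      exact (e u).2 ⟨s, not_le.1 hlt⟩
    · simp only [h]
      rw [abs_le]
      constructor <;> omega
  have r1 := reach_replace G k q f h hf hhr hhh (fun u v => hhv u (Sum.inl v))
  have r2 := reach_replace G k q g h hg hhr hhh (fun u v => hhv u (Sum.inr v))
  exact r1.2.1.trans r2.2.2

end large

section final

variable {V : Type} [Fintype V]

lemma mem_thresholds_large (G : SimpleGraph V) :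
    ((((2 * (3 * Fintype.card V + 1) : ℕ) : ℚ)) : ℝ) ∈ thresholds G := by
  refine ⟨_, rfl, fun k q _ hq h => ?_⟩
  apply mixing_large G k q hq
  have hq' : (0 : ℚ) < q := by exact_mod_cast hq
  rw [le_div_iff₀ hq'] at h
  have : (2 * (3 * Fintype.card V + 1) * q : ℕ) ≤ k := by exact_mod_cast h
  calc 2 * q * (3 * Fintype.card V + 1) = 2 * (3 * Fintype.card V + 1) * q := by ring
    _ ≤ k := this

lemma pos_nonempty (G : SimpleGraph V) : (posThresholds G).Nonempty := by
  refine ⟨_, mem_thresholds_large G, ?_⟩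
  push_cast
  positivity

lemma pos_glb (G : SimpleGraph V) : ∃ m : ℚ, IsGLB (posThresholds G) (m : ℝ) := by
  have hbdd : BddBelow (posThresholds G) := ⟨0, fun ℓ hℓ => hℓ.2.le⟩
  have hglb := isGLB_csInf (pos_nonempty G) hbdd
  set x := sInf (posThresholds G) with hxdef
  by_cases hx : Irrational x
  · exfalso
    have hx0 : 0 ≤ x := hglb.2 fun ℓ hℓ => hℓ.2.le
    have hxpos : 0 < x := lt_of_le_of_ne hx0 (fun h => hx ⟨0, by simpa using h⟩)
    obtain ⟨b, hb⟩ := stable_mixing G x hx
    -- an explicit neighbourhood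
    obtain ⟨ε, hε, hnear⟩ : ∃ ε > 0, ∀ k q : ℕ, 0 < q → |(k : ℝ) / q - x| < ε →
        (Mixing G k q ↔ b) := by
      unfold near at hb
      rw [eventually_inf_principal, eventually_comap] at hb
      obtain ⟨ε, hε, h⟩ := Metric.eventually_nhds_iff.1 hb
      refine ⟨ε, hε, fun k q hq hd => ?_⟩
      exact h (y := (k : ℝ) / q) (by rwa [Real.dist_eq]) (k, q) rfl hq
    -- `b` holds because of thresholds just above `x`
    obtain ⟨ℓ, hℓ, hℓx⟩ : ∃ ℓ ∈ posThresholds G, ℓ < x + ε := by
      by_contra hcon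
      push Not at hcon
      have := hglb.2 hcon
      linarith
    have hxℓ : x ≤ ℓ := hglb.1 hℓ
    obtain ⟨⟨r, hr, hmix⟩, hℓ0⟩ := hℓ
    have hr0 : 0 < r := by
      have : (0 : ℝ) < r := by rw [hr]; exact hℓ0
      exact_mod_cast this
    have hbtrue : b := by
      have hnum : ((r.num.toNat : ℕ) : ℤ) = r.num := Int.toNat_of_nonneg (Rat.num_nonneg.2 hr0.le)
      have hval : ((r.num.toNat : ℕ) : ℚ) / (r.den : ℚ) = r := by
        have h1 : ((r.num.toNat : ℕ) : ℚ) = (r.num : ℚ) := by
          rw [← Int.cast_natCast, hnum]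
        rw [h1]
        exact Rat.num_div_den r
      have hvalR : ((r.num.toNat : ℕ) : ℝ) / (r.den : ℝ) = ℓ := by
        rw [← hr]
        have := congrArg (fun z : ℚ => (z : ℝ)) hval
        push_cast at this
        exact this
      have hpos : 0 < r.num.toNat := by
        have := Rat.num_pos.2 hr0
        omega
      refine (hnear r.num.toNat r.den r.den_pos ?_).1 (hmix _ _ hpos r.den_pos (by rw [hval]))
      rw [hvalR, abs_lt]
      constructor <;> linarith
    -- hence a threshold below `x`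
    obtain ⟨s, hs1, hs2⟩ := exists_rat_btwn (show max (x - ε) 0 < x from max_lt (by linarith) hxpos)
    have hs : (s : ℝ) ∈ posThresholds G := by
      refine ⟨⟨s, rfl, fun k q hk hq hkq => ?_⟩, (le_max_right _ _).trans_lt hs1⟩
      have hkq' : (s : ℝ) ≤ (k : ℝ) / q := by
        have := (Rat.cast_le (K := ℝ)).2 hkq
        push_cast at this
        exact this
      by_cases hlt : (k : ℝ) / q < x + ε
      · refine (hnear k q hq ?_).2 hbtrue
        rw [abs_lt]
        have := (le_max_left (x - ε) 0).trans_lt hs1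
        constructor <;> linarith
      · apply hmix k q hk hq
        have : (r : ℝ) ≤ (k : ℝ) / q := by rw [hr]; linarith
        rw [← Rat.cast_le (K := ℝ)]
        push_cast
        exact this
    have := hglb.1 hs
    linarith
  · unfold Irrational at hx
    push Not at hx
    obtain ⟨m, hm⟩ := hx
    exact ⟨m, by rw [hm]; exact hglb⟩

end final

/-- **Answer to Q1: yes.**  The circular mixing threshold of every finite graph is rational: the
set of positive rationals `ℓ` such that `G` is `(k,q)`-mixing whenever `k / q ≥ ℓ` is non-empty and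
its infimum is a rational number; and if the set of all rationals with this property is bounded
below then its infimum is rational too. -/
theorem result (V : Type) [Fintype V] (G : SimpleGraph V) :
    (posThresholds G).Nonempty ∧ (∃ m : ℚ, IsGLB (posThresholds G) (m : ℝ)) ∧
      (BddBelow (thresholds G) → ∃ m : ℚ, IsGLB (thresholds G) (m : ℝ)) := by
  refine ⟨pos_nonempty G, pos_glb G, fun hb => ?_⟩
  obtain ⟨m, hm⟩ := pos_glb G
  refine ⟨m, ?_⟩
  have : thresholds G = posThresholds G := by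
    ext ℓ
    refine ⟨fun h => ⟨h, ?_⟩, fun h => h.1⟩
    by_contra hneg
    obtain ⟨r, hr, hmix⟩ := h
    have hr0 : r ≤ 0 := by
      have : (r : ℝ) ≤ 0 := by rw [hr]; exact not_lt.1 hneg
      exact_mod_cast this
    obtain ⟨B, hB⟩ := hb
    obtain ⟨N, hN⟩ := exists_nat_gt (-B)
    have hmem : (((-(N : ℚ)) : ℚ) : ℝ) ∈ thresholds G := by
      refine ⟨-(N : ℚ), rfl, fun k q hk hq _ => hmix k q hk hq (hr0.trans (by positivity))⟩
    have := hB hmem
    push_cast at this
    linarith
  rw [this]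
  exact hm

end Pool.Agent.Results.MP_05142a_co.RationalThreshold
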